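import Pool.Agent.Helper26.SQ.Stmts

/-!
`st_lemA` (T2): a block with a large upper part can be forced in twice the width.
-/

set_option autoImplicit false

namespace Pool.Agent.Helper18.SQ

open Pool.Agent.Helper3.DW Pool.Agent.Helper26.SQ

/-- A safe position which is described by blocks; all the blocks but the block `0` are narrow. -/
structure St (j m : ℕ) (Q : Ps → Prop) (P₀ P : Ps) (q : ℕ) (C : ℕ → Finset ℕ)
    (R S : ℕ → ℕ → Bool) : Prop where
  safe : Safe (2 * j) m Q P
  suf : P₀ <:+ P
  sys : ∃ F : ℕ → Finset ℕ, Sys P q F C R S ∧ ∀ a, 1 ≤ a → a < q → Wd P (F a) j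

section

variable {j m : ℕ} {Q : Ps → Prop} {P₀ P : Ps} {q : ℕ} {C : ℕ → Finset ℕ} {R S : ℕ → ℕ → Bool}

theorem St.ins (h : St j m Q P₀ P q C R S) {Q2 : Ps → Prop} (hF : Force j m Q2 [])
    (D U : ℕ → Bool)
    (c1 : ∀ a < q, ∀ b < q, D b = true → D a = false → S a b = true)
    (c2 : ∀ a < q, ∀ b < q, U a = true → U b = false → S a b = true)
    (c3 : ∀ a < q, ∀ b < q, D a = true → U b = true → R a b = true)
    (c4 : ∀ a < q, ∀ b < q, (D a || U a || D b || U b || a == b || R a b || R b a) = true)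
    (c5 : D 0 = true) :
    ∃ P' N : Ps, Q2 N ∧ Inv j m N ∧ cols N ⊆ cols P' ∧ P <:+ P' ∧
      ∀ (q2 : ℕ) (F2 C2 : ℕ → Finset ℕ) (R2 S2 : ℕ → ℕ → Bool), Sys N q2 F2 C2 R2 S2 →
        St j m Q P₀ P' (q + q2) (catC q C C2) (catR q R R2 D U) (catS q S S2 D U) := by
  obtain ⟨F, hs, hW⟩ := h.sys
  have hg := h.safe.inv.good.lt_len
  have hN : Wd P (un q F (fun a => !D a && !U a)) j := by
    refine hs.wd ?_ ?_
    · intro a ha b hb h1 h2 hab
      simp only [Bool.and_eq_true, Bool.not_eq_true'] at h1 h2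
      have h3 := c4 a ha b hb
      have h4 : (a == b) = false := by simpa using hab
      rw [h1.1, h1.2, h2.1, h2.2, h4] at h3
      simpa using h3
    · intro a ha h1
      simp only [Bool.and_eq_true, Bool.not_eq_true'] at h1
      refine hW a ?_ ha
      rcases Nat.eq_zero_or_pos a with h2 | h2
      · subst h2
        rw [c5] at h1
        simp at h1
      · exact h2
  have hh : IsHole (2 * j) j P (un q F D) (un q F U) :=
    hs.hole D U c1 c2 c3 hN (by omega) hg
  obtain ⟨N, hN1, hN2, hN3⟩ := h.safe.ins hh hF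
  refine ⟨_, N, hN1, hN2, cols_glue_new _ _ _ _, suffix_glue _ _ _ _,
    fun q2 F2 C2 R2 S2 hs2 => ⟨hN3, h.suf.trans (suffix_glue _ _ _ _),
      catF q P.length F F2, hs.glu hs2 D U hg hN2.good.lt_len, ?_⟩⟩
  intro a ha1 ha
  by_cases haq : a < q
  · have : catF q P.length F F2 a = F a := if_pos haq
    rw [this]
    exact (hW a ha1 haq).old (suffix_glue _ _ _ _) (fun y hy => hs.len haq y hy)
  · have : catF q P.length F F2 a = sh P.length (F2 (a - q)) := if_neg haq
    rw [this]
    exact Wd.new ((wd_range hN2.good).mono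
      (fun y hy => Finset.mem_range.2 (hs2.len (by omega) y hy)) le_rfl)

/-- The table without relations. -/
def oo : ℕ → ℕ → Bool := fun _ _ => false

theorem St.ins1 (h : St j m Q P₀ P q C R S) {v : ℕ} (hF : FG j m v) (D U : ℕ → Bool)
    (c1 : ∀ a < q, ∀ b < q, D b = true → D a = false → S a b = true)
    (c2 : ∀ a < q, ∀ b < q, U a = true → U b = false → S a b = true)
    (c3 : ∀ a < q, ∀ b < q, D a = true → U b = true → R a b = true)
    (c4 : ∀ a < q, ∀ b < q, (D a || U a || D b || U b || a == b || R a b || R b a) = true)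
    (c5 : D 0 = true) :
    ∃ (P' : Ps) (N : Finset ℕ), v ≤ N.card ∧ P <:+ P' ∧
      St j m Q P₀ P' (q + 1) (catC q C (fun _ => N)) (catR q R oo D U) (catS q S oo D U) := by
  obtain ⟨P', N, h1, h2, h3, h4, h5⟩ := h.ins hF D U c1 c2 c3 c4 c5
  exact ⟨P', cols N, h1, h4, h5 1 _ _ _ _ (sys_one N)⟩

theorem St.reg (h : St j m Q P₀ P q C R S) {x : ℕ}
    (hmax : ∀ P', P₀ <:+ P' → Safe (2 * j) m Q P' → ¬ Blk j 0 x P' (Finset.range P'.length))
    (A : ℕ → Bool) (hA0 : A 0 = false)
    (hup : ∀ a < q, ∀ b < q, A a = true → A b = false → S a b = true)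
    (hlin : ∀ a < q, ∀ b < q, (!A a || !A b || a == b || R a b || R b a) = true) :
    (un q C A).card < x := by
  by_contra hx
  rw [not_lt] at hx
  obtain ⟨F, hs, hW⟩ := h.sys
  refine hmax P h.suf h.safe ⟨un q F A, ?_, ?_, ?_, Nat.zero_le _, ?_⟩
  · intro y hy
    exact Finset.mem_range.2 (hs.un_len y hy)
  · intro y hy z hz hlt
    obtain ⟨a, ha, hA, hya⟩ := mem_un.1 hy
    obtain ⟨b, hb, hzb⟩ := (hs.cov z).1 (Finset.mem_range.1 hz)
    rw [hs.mem_un_iff hb hzb]
    by_contra hAb
    rw [Bool.not_eq_true] at hAb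
    exact hs.nb a ha b hb (hup a ha b hb hA hAb) y hya z hzb hlt
  · refine hs.wd (fun a ha b hb h1 h2 hab => ?_) fun a ha hA => hW a ?_ ha
    · have h3 := hlin a ha b hb
      have h4 : (a == b) = false := by simpa using hab
      rw [h1, h2, h4] at h3
      simpa using h3
    rcases Nat.eq_zero_or_pos a with h2 | h2
    · subst h2
      rw [hA0] at hA
      simp at hA
    · exact h2
  · rw [hs.colU_un]
    exact hx

theorem St.disj (h : St j m Q P₀ P q C R S) (a b : ℕ) (ha : a < q) (hb : b < q) (hab : a ≠ b)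
    (h1 : S a b = true) (h2 : S b a = true) : Disjoint (C a) (C b) := by
  obtain ⟨F, hs, _⟩ := h.sys
  exact hs.disj h.safe.inv ha hb hab h1 h2

theorem St.sub_cols (h : St j m Q P₀ P q C R S) (a : ℕ) (ha : a < q) : C a ⊆ cols P := by
  obtain ⟨F, hs, _⟩ := h.sys
  exact hs.sub_cols ha

theorem sub_un {A : ℕ → Bool} (a : ℕ) (ha : a < q) (hA : A a = true) : C a ⊆ un q C A :=
  fun _ hx => mem_un.2 ⟨a, ha, hA, hx⟩

end

/-- Three sets of colours. -/
theorem card_three {T s n X Y : Finset ℕ} (h1 : Disjoint T s) (h2 : Disjoint T n)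
    (h3 : Disjoint n X) (hT : T ⊆ Y) (hs : s ⊆ Y) (hn : n ⊆ Y) :
    T.card + n.card + (s ∩ X).card ≤ Y.card := by
  have e1 : Disjoint n (s ∩ X) := h3.mono_right Finset.inter_subset_right
  have e2 : Disjoint T (n ∪ (s ∩ X)) := by
    rw [Finset.disjoint_union_right]
    exact ⟨h2, h1.mono_right Finset.inter_subset_left⟩
  have e3 : T ∪ (n ∪ (s ∩ X)) ⊆ Y :=
    Finset.union_subset hT (Finset.union_subset hn (Finset.inter_subset_left.trans hs))
  have e4 := Finset.card_le_card e3
  rw [Finset.card_union_of_disjoint e2, Finset.card_union_of_disjoint e1] at e4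
  omega

/-- Four sets of colours. -/
theorem card_four {X t s r Y : Finset ℕ} (h1 : Disjoint X t) (h2 : Disjoint s r)
    (hX : X ⊆ Y) (ht : t ⊆ Y) (hs : s ⊆ Y) (hr : r ⊆ Y) :
    X.card + t.card + s.card + r.card ≤ Y.card + (s ∩ X).card + (s ∩ t).card + (r ∩ X).card +
      (r ∩ t).card := by
  have e1 : (s \ (X ∪ t)).card + (r \ (X ∪ t)).card + (X.card + t.card) ≤ Y.card := by
    have f1 : Disjoint (s \ (X ∪ t)) (r \ (X ∪ t)) :=
      h2.mono Finset.sdiff_subset Finset.sdiff_subset
    have f2 : Disjoint ((s \ (X ∪ t)) ∪ (r \ (X ∪ t))) (X ∪ t) := by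
      rw [Finset.disjoint_union_left]
      exact ⟨Finset.sdiff_disjoint, Finset.sdiff_disjoint⟩
    have f3 : ((s \ (X ∪ t)) ∪ (r \ (X ∪ t))) ∪ (X ∪ t) ⊆ Y :=
      Finset.union_subset (Finset.union_subset (Finset.sdiff_subset.trans hs)
        (Finset.sdiff_subset.trans hr)) (Finset.union_subset hX ht)
    have f4 := Finset.card_le_card f3
    rw [Finset.card_union_of_disjoint f2, Finset.card_union_of_disjoint f1,
      Finset.card_union_of_disjoint h1] at f4
    exact f4
  have e2 : ∀ u : Finset ℕ, u.card ≤ (u \ (X ∪ t)).card + (u ∩ X).card + (u ∩ t).card := by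
    intro u
    have f1 : u ⊆ (u \ (X ∪ t)) ∪ (u ∩ X) ∪ (u ∩ t) := by
      intro c hc
      simp only [Finset.mem_union, Finset.mem_sdiff, Finset.mem_inter]
      tauto
    have f2 := Finset.card_le_card f1
    have f3 := Finset.card_union_le ((u \ (X ∪ t)) ∪ (u ∩ X)) (u ∩ t)
    have f4 := Finset.card_union_le (u \ (X ∪ t)) (u ∩ X)
    omega
  have e3 := e2 s
  have e4 := e2 r
  omega

/-- The estimate for a region. -/
theorem St.three {j m : ℕ} {Q : Ps → Prop} {P₀ P : Ps} {q : ℕ} {C : ℕ → Finset ℕ}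
    {R S : ℕ → ℕ → Bool} (h : St j m Q P₀ P q C R S) {x : ℕ}
    (hmax : ∀ P', P₀ <:+ P' → Safe (2 * j) m Q P' → ¬ Blk j 0 x P' (Finset.range P'.length))
    (A : ℕ → Bool) (hA0 : A 0 = false)
    (hup : ∀ a < q, ∀ b < q, A a = true → A b = false → S a b = true)
    (hlin : ∀ a < q, ∀ b < q, (!A a || !A b || a == b || R a b || R b a) = true)
    (t t1 t2 s' n' x' : ℕ)
    (hb : (decide (t < q) && decide (t1 < q) && decide (t2 < q) && decide (s' < q) &&
      decide (n' < q) && decide (x' < q) && A t && A s' && A n' && !(t1 == s') && !(t2 == n') &&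
      !(n' == x') && S t1 s' && S s' t1 && S t2 n' && S n' t2 && S n' x' && S x' n') = true)
    {T s n X : Finset ℕ} (hT : C t = T) (hT1 : C t1 = T) (hT2 : C t2 = T) (hs : C s' = s)
    (hn : C n' = n) (hX : C x' = X) : T.card + n.card + (s ∩ X).card < x := by
  simp only [Bool.and_eq_true, decide_eq_true_eq, Bool.not_eq_true', beq_eq_false_iff_ne] at hb
  obtain ⟨⟨⟨⟨⟨⟨⟨⟨⟨⟨⟨⟨⟨⟨⟨⟨⟨b1, b2⟩, b3⟩, b4⟩, b5⟩, b6⟩, b7⟩, b8⟩, b9⟩, b10⟩, b11⟩, b12⟩, b13⟩,
    b14⟩, b15⟩, b16⟩, b17⟩, b18⟩ := hb
  refine lt_of_le_of_lt ?_ (h.reg hmax A hA0 hup hlin)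
  refine card_three ?_ ?_ ?_ ?_ ?_ ?_
  · rw [← hT1, ← hs]
    exact h.disj _ _ b2 b4 b10 b13 b14
  · rw [← hT2, ← hn]
    exact h.disj _ _ b3 b5 b11 b15 b16
  · rw [← hn, ← hX]
    exact h.disj _ _ b5 b6 b12 b17 b18
  · rw [← hT]
    exact sub_un _ b1 b7
  · rw [← hs]
    exact sub_un _ b4 b8
  · rw [← hn]
    exact sub_un _ b5 b9

/-! ### the tables -/

def tt : ℕ → Bool := fun _ => true
def ff : ℕ → Bool := fun _ => false
/-- the tables of a linear sum -/
def Rl : ℕ → ℕ → Bool := fun a b => decide (a < b)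
def Sl : ℕ → ℕ → Bool := fun a b => decide (b < a)

/-- The positions after the step 0. -/
theorem region_two (hrep : ST_rep) (j m v : ℕ) (hFG : FG j m v)
    (hB : Force j m (fun P => Blk j 0 v P (Finset.range P.length)) []) :
    Force (2 * j) m (fun P => Blk j 0 (2 * v) P (Finset.range P.length)) [] := by
  by_contra hnf
  set Q : Ps → Prop := fun P => Blk j 0 (2 * v) P (Finset.range P.length) with hQ
  have h0 : St j m Q [] [] 1 (fun _ => cols []) oo oo :=
    ⟨⟨inv_nil _ _, hnf⟩, List.suffix_rfl, _, sys_one [], by intro a h1 h2; omega⟩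
  have hmax : ∀ P', [] <:+ P' → Safe (2 * j) m Q P' →
      ¬ Blk j 0 (2 * v) P' (Finset.range P'.length) := fun P' _ h => h.not
  obtain ⟨P2, N2, hN, hI, hc, hsuf, h2⟩ := h0.ins (hrep j m j 0 v hB 2 (2 * v)) tt ff
    (by decide) (by decide) (by decide) (by decide) (by decide)
  rcases hN with ⟨F, C, T, hS, hT⟩ | hN
  · have h3 := h2 3 F C Rl Sl hS
    obtain ⟨P3, s, hs, -, h4⟩ := h3.ins1 hFG (fun a => decide (a < 2)) (fun a => a == 3)
      (by decide) (by decide) (by decide) (by decide) (by decide)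
    have h5 := h4.reg hmax (fun a => a == 3 || a == 4) (by decide) (by decide) (by decide)
    have h6 := h4.disj 2 4 (by decide) (by decide) (by decide) (by decide) (by decide)
    have e1 : catC (1 + 3) (catC 1 (fun _ => cols []) C) (fun _ => s) 2 = T :=
      (hT 1 (by decide) (by decide)).1
    have e2 : catC (1 + 3) (catC 1 (fun _ => cols []) C) (fun _ => s) 3 = T :=
      (hT 2 (by decide) (by decide)).1
    have e3 : catC (1 + 3) (catC 1 (fun _ => cols []) C) (fun _ => s) 4 = s := rfl
    rw [e1, e3] at h6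
    obtain ⟨C', g1, g2, g3, g4, g5⟩ := (hT 1 (by decide) (by decide)).2
    have g6 : v ≤ T.card := by
      have g7 := Finset.card_le_card (colU_mono (P := N2) g1)
      rw [hS.col 1 (by decide), (hT 1 (by decide) (by decide)).1] at g7
      exact g5.trans g7
    have f1 := sub_un (C := catC (1 + 3) (catC 1 (fun _ => cols []) C) (fun _ => s)) (q := 1 + 3 + 1)
      (A := fun a => a == 3 || a == 4) 3 (by decide) (by decide)
    have f2 := sub_un (C := catC (1 + 3) (catC 1 (fun _ => cols []) C) (fun _ => s)) (q := 1 + 3 + 1)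
      (A := fun a => a == 3 || a == 4) 4 (by decide) (by decide)
    rw [e2] at f1
    rw [e3] at f2
    have f3 := Finset.card_le_card (Finset.union_subset f1 f2)
    rw [Finset.card_union_of_disjoint h6] at f3
    omega
  · have h3 := h2 1 _ _ _ _ (sys_one N2)
    have h5 := h3.reg hmax (fun a => a == 1) (by decide) (by decide) (by decide)
    have f1 := sub_un (C := catC 1 (fun _ => cols []) (fun _ => cols N2)) (q := 1 + 1)
      (A := fun a => a == 1) 1 (by decide) (by decide)
    have e3 : catC 1 (fun _ => cols []) (fun _ => cols N2) 1 = cols N2 := rfl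
    rw [e3] at f1
    have f3 := Finset.card_le_card f1
    omega

/-- A safe position has few colours. -/
theorem safe_cols (j m v y : ℕ)
    (hF : Force (2 * j) m (fun P => Blk j 0 y P (Finset.range P.length)) [])
    {P : Ps} (hP : Safe (2 * j) m
      (fun P => Blk j (11 * v) y P (Finset.range P.length)) P) :
    (cols P).card < 11 * v := by
  by_contra hc
  rw [not_lt] at hc
  obtain ⟨N, hN1, hN2, hN3⟩ := hP.ins (hole_top hP.inv.good) hF
  refine hN3.not ?_
  have hD : ∀ d ∈ Finset.range P.length, d < P.length := fun d hd => Finset.mem_range.1 hd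
  have h1 := Blk.new (P := P) (D := Finset.range P.length) (U := ∅) hN1
    hP.inv.good.lt_len hD (by simp)
  have h2 := h1.whole (by
    intro y hy z hlt
    obtain ⟨i, hi, rfl⟩ := mem_sh.1 hy
    rcases (plt_glue _ _ _ _ _ _).1 hlt with h6 | ⟨a, b, h6, h7, h8⟩ | ⟨h6, _⟩ | ⟨h6, _⟩
    · have := (hP.inv.good.lt_len _ _ h6).1
      omega
    · rw [h7]
      exact add_mem_sh.2 (Finset.mem_range.2 (hN2.good.lt_len _ _ h8).2)
    · have := hD _ h6
      omega
    · simp at h6) (by
    intro y hy
    obtain ⟨i, hi, rfl⟩ := mem_sh.1 hy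
    rw [glue_length]
    have := Finset.mem_range.1 hi
    omega)
  obtain ⟨C, g1, g2, g3, g4, g5⟩ := h2
  refine ⟨C, g1, g2, g3, ?_, g5⟩
  have h3 : (cols P).card ≤ (cols (glue P (Finset.range P.length) ∅ N)).card :=
    Finset.card_le_card (cols_suffix (suffix_glue _ _ _ _))
  have h4 : cols (glue P (Finset.range P.length) ∅ N) =
    colU (glue P (Finset.range P.length) ∅ N)
      (Finset.range (glue P (Finset.range P.length) ∅ N).length) := rfl
  rw [← h4]
  omega

/-- A position on the top of `P` with an upper region. -/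
theorem top_region {j m y : ℕ} {Q : Ps → Prop} {P : Ps} (hP : Safe (2 * j) m Q P)
    (hF : Force (2 * j) m (fun P => Blk j 0 y P (Finset.range P.length)) []) :
    ∃ P', P <:+ P' ∧ Safe (2 * j) m Q P' ∧ Blk j 0 y P' (Finset.range P'.length) := by
  obtain ⟨N, hN1, hN2, hN3⟩ := hP.ins (hole_top hP.inv.good) hF
  refine ⟨_, suffix_glue _ _ _ _, hN3, ?_⟩
  have hD : ∀ d ∈ Finset.range P.length, d < P.length := fun d hd => Finset.mem_range.1 hd
  have h1 := Blk.new (P := P) (D := Finset.range P.length) (U := ∅) hN1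
    hP.inv.good.lt_len hD (by simp)
  refine h1.whole (by
    intro y hy z hlt
    obtain ⟨i, hi, rfl⟩ := mem_sh.1 hy
    rcases (plt_glue _ _ _ _ _ _).1 hlt with h6 | ⟨a, b, h6, h7, h8⟩ | ⟨h6, _⟩ | ⟨h6, _⟩
    · have := (hP.inv.good.lt_len _ _ h6).1
      omega
    · rw [h7]
      exact add_mem_sh.2 (Finset.mem_range.2 (hN2.good.lt_len _ _ h8).2)
    · have := hD _ h6
      omega
    · simp at h6) (by
    intro y hy
    obtain ⟨i, hi, rfl⟩ := mem_sh.1 hy
    rw [glue_length]
    have := Finset.mem_range.1 hi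
    omega)

/-- The general form: if a region with `y` colours can be forced, then it can be forced together
with many colours. -/
theorem lem_gen (hrep : ST_rep) (j m v y : ℕ) (hFG : FG j m v)
    (hR2 : Force (2 * j) m (fun P => Blk j 0 y P (Finset.range P.length)) []) :
    Force (2 * j) m (fun P => Blk j (11 * v) y P (Finset.range P.length)) [] := by
  by_contra hnf
  set Q : Ps → Prop := fun P => Blk j (11 * v) y P (Finset.range P.length) with hQ
  have hB : Force j m (fun P => Blk j 0 v P (Finset.range P.length)) [] :=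
    (Force.inv hFG (inv_nil j m)).imp fun P hP =>
      ⟨Finset.range P.length, subset_rfl, fun y _ z hz _ => hz, wd_range hP.2.1.good,
        Nat.zero_le _, hP.1⟩
  have hbound : ∀ P, Safe (2 * j) m Q P → (cols P).card < 11 * v :=
    fun P hP => safe_cols j m v y hR2 hP
  -- the maximal number of colours of a region
  have hex : ∃ x : ℕ, (∀ P, Safe (2 * j) m Q P → ∃ P', P <:+ P' ∧ Safe (2 * j) m Q P' ∧
      Blk j 0 x P' (Finset.range P'.length)) ∧
      ¬ (∀ P, Safe (2 * j) m Q P → ∃ P', P <:+ P' ∧ Safe (2 * j) m Q P' ∧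
      Blk j 0 (x + 1) P' (Finset.range P'.length)) := by
    by_contra hcon
    push Not at hcon
    have hall : ∀ x : ℕ, ∀ P, Safe (2 * j) m Q P → ∃ P', P <:+ P' ∧ Safe (2 * j) m Q P' ∧
        Blk j 0 x P' (Finset.range P'.length) := by
      intro x
      induction x with
      | zero =>
        intro P hP
        exact ⟨P, List.suffix_rfl, hP, ∅, by simp, by simp, wd_empty _ _, Nat.zero_le _,
          Nat.zero_le _⟩
      | succ x ih => exact hcon x ih
    obtain ⟨P', _, h1, C, g1, _, _, _, g5⟩ := hall (11 * v) [] ⟨inv_nil _ _, hnf⟩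
    have h2 := hbound P' h1
    have h3 := Finset.card_le_card (colU_subset_cols (P := P') C)
    omega
  obtain ⟨x, hx, hx1⟩ := hex
  push Not at hx1
  obtain ⟨P₀, hP₀, hmax⟩ := hx1
  have hyx : y ≤ x := by
    by_contra hlt
    obtain ⟨P', e1, e2, C, g1, g2, g3, _, g5⟩ := top_region hP₀ hR2
    exact hmax P' e1 e2 ⟨C, g1, g2, g3, Nat.zero_le _, by omega⟩
  obtain ⟨P1, hsuf1, hsafe1, X, hX1, hX2, hX3, -, hX5⟩ := hx P₀ hP₀
  -- the description of `P1`
  have h1 : St j m Q P₀ P1 2 (fun a => if a = 0 then colU P1 (Finset.range P1.length \ X)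
      else colU P1 X) oo (fun a b => a == 1 && b == 0) := by
    refine ⟨hsafe1, hsuf1, fun a => if a = 0 then Finset.range P1.length \ X else X, ?_, ?_⟩
    · constructor
      · intro y
        constructor
        · intro hy
          by_cases hyX : y ∈ X
          · exact ⟨1, by omega, by simpa using hyX⟩
          · exact ⟨0, by omega, by simpa using ⟨hy, hyX⟩⟩
        · rintro ⟨a, ha, hy⟩
          by_cases ha0 : a = 0
          · rw [if_pos ha0] at hy
            exact Finset.mem_range.1 (Finset.mem_sdiff.1 hy).1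
          · rw [if_neg ha0] at hy
            exact Finset.mem_range.1 (hX1 hy)
      · intro a ha b hb y hya hyb
        by_cases ha0 : a = 0
        · rw [if_pos ha0] at hya
          by_cases hb0 : b = 0
          · omega
          · rw [if_neg hb0] at hyb
            exact absurd hyb (Finset.mem_sdiff.1 hya).2
        · rw [if_neg ha0] at hya
          by_cases hb0 : b = 0
          · rw [if_pos hb0] at hyb
            exact absurd hya (Finset.mem_sdiff.1 hyb).2
          · omega
      · intro a ha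
        by_cases ha0 : a = 0
        · simp only [if_pos ha0]
        · simp only [if_neg ha0]
      · intro a ha b hb hab
        simp [oo] at hab
      · intro a ha b hb hab y hy z hz hlt
        simp only [Bool.and_eq_true, beq_iff_eq] at hab
        rw [if_neg (by omega)] at hy
        rw [if_pos hab.2] at hz
        rw [Finset.mem_sdiff] at hz
        exact hz.2 (hX2 y hy z hz.1 hlt)
    · intro a ha1 ha
      have e : (fun a => if a = 0 then Finset.range P1.length \ X else X) a = X :=
        if_neg (by omega)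
      rw [e]
      exact hX3
  -- the repeated blocks
  obtain ⟨P2, N2, hN, -, hc, -, h2⟩ := h1.ins (hrep j m j 0 v hB 4 (11 * v)) tt ff
    (by decide) (by decide) (by decide) (by decide) (by decide)
  rcases hN with ⟨F, C, T, hS, hT⟩ | hN
  swap
  · have g1 := hbound P2 (h2 1 _ _ _ _ (sys_one N2)).safe
    have g2 := Finset.card_le_card hc
    omega
  have hTv : v ≤ T.card := by
    obtain ⟨C', g1, g2, g3, g4, g5⟩ := (hT 1 (by decide) (by decide)).2
    have g7 := Finset.card_le_card (colU_mono (P := N2) g1)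
    rw [hS.col 1 (by decide), (hT 1 (by decide) (by decide)).1] at g7
    exact g5.trans g7
  have h2' := h2 5 F C Rl Sl hS
  -- `s`
  obtain ⟨P3, s, hs, -, h3⟩ := h2'.ins1 hFG (fun a => decide (a < 5)) (fun a => a == 6)
    (by decide) (by decide) (by decide) (by decide) (by decide)
  -- (i)
  obtain ⟨P4', u, hu, -, h4'⟩ := h3.ins1 hFG (fun a => a == 0) (fun a => a == 6 || a == 7)
    (by decide) (by decide) (by decide) (by decide) (by decide)
  have E := fun i h1 h2 => (hT i h1 h2).1
  have i1 : T.card + u.card + (s ∩ colU P1 X).card < x + 1 := h4'.three hmax (fun a => a == 6 || a == 7 || a == 8) (by decide) (by decide)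
    (by decide) 6 5 3 7 8 1 (by decide) (E 4 (by decide) (by decide)) (E 3 (by decide) (by decide))
    (E 1 (by decide) (by decide)) rfl rfl rfl
  -- (ii)
  obtain ⟨P4, t, ht, -, h4⟩ := h3.ins1 hFG (fun a => a == 0)
    (fun a => a == 4 || a == 5 || a == 6 || a == 7)
    (by decide) (by decide) (by decide) (by decide) (by decide)
  -- (iii)
  obtain ⟨P5', u3, hu3, -, h5'⟩ := h4.ins1 hFG (fun a => decide (a < 4))
    (fun a => a == 6 || a == 7)
    (by decide) (by decide) (by decide) (by decide) (by decide)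
  have i3 : T.card + u3.card + (s ∩ t).card < x + 1 := h5'.three hmax (fun a => a == 6 || a == 7 || a == 9) (by decide) (by decide)
    (by decide) 6 5 4 7 9 8 (by decide) (E 4 (by decide) (by decide)) (E 3 (by decide) (by decide))
    (E 2 (by decide) (by decide)) rfl rfl rfl
  -- (iv)
  obtain ⟨P5, r, hr, -, h5⟩ := h4.ins1 hFG (fun a => decide (a < 4) || a == 8)
    (fun a => a == 5 || a == 6)
    (by decide) (by decide) (by decide) (by decide) (by decide)
  -- (v)
  obtain ⟨P6', u5, hu5, -, h6'⟩ := h5.ins1 hFG (fun a => a == 0 || a == 8)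
    (fun a => a == 5 || a == 6 || a == 9)
    (by decide) (by decide) (by decide) (by decide) (by decide)
  have i5 : T.card + u5.card + (r ∩ colU P1 X).card < x + 1 := h6'.three hmax (fun a => a == 5 || a == 6 || a == 9 || a == 10) (by decide)
    (by decide) (by decide) 6 4 3 9 10 1 (by decide) (E 4 (by decide) (by decide))
    (E 2 (by decide) (by decide)) (E 1 (by decide) (by decide)) rfl rfl rfl
  -- (vi)
  obtain ⟨P6'', u6, hu6, -, h6''⟩ := h5.ins1 hFG (fun a => decide (a < 4))
    (fun a => a == 5 || a == 6 || a == 9)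
    (by decide) (by decide) (by decide) (by decide) (by decide)
  have i6 : T.card + u6.card + (r ∩ t).card < x + 1 := h6''.three hmax (fun a => a == 5 || a == 6 || a == 9 || a == 10) (by decide)
    (by decide) (by decide) 6 4 4 9 10 8 (by decide) (E 4 (by decide) (by decide))
    (E 2 (by decide) (by decide)) (E 2 (by decide) (by decide)) rfl rfl rfl
  -- the colours of `P5`
  have d1 : Disjoint (colU P1 X) t := h5.disj 1 8 (by decide) (by decide) (by decide) (by decide)
    (by decide)
  have d2 : Disjoint s r := h5.disj 7 9 (by decide) (by decide) (by decide) (by decide)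
    (by decide)
  have k1 : colU P1 X ⊆ cols P5 := h5.sub_cols 1 (by decide)
  have k2 : t ⊆ cols P5 := h5.sub_cols 8 (by decide)
  have k3 : s ⊆ cols P5 := h5.sub_cols 7 (by decide)
  have k4 : r ⊆ cols P5 := h5.sub_cols 9 (by decide)
  have k5 := card_four d1 d2 k1 k2 k3 k4
  obtain ⟨P6, hsuf6, hsafe6, Y, y1, y2, y3, -, y5⟩ := hx P5 h5.safe
  have k6 := Finset.card_le_card (cols_suffix hsuf6)
  refine hsafe6.not ⟨Y, y1, y2, y3, ?_, ?_⟩
  · have e : colU P6 (Finset.range P6.length) = cols P6 := rfl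
    rw [e]
    have j1 : (s ∩ colU P1 X).card + 2 * v ≤ x := by omega
    have j3 : (s ∩ t).card + 2 * v ≤ x := by omega
    have j5 : (r ∩ colU P1 X).card + 2 * v ≤ x := by omega
    have j6 : (r ∩ t).card + 2 * v ≤ x := by omega
    omega
  · omega

theorem st_lemA (hrep : ST_rep) : ST_lemA := by
  intro j m v hFG
  have hB : Force j m (fun P => Blk j 0 v P (Finset.range P.length)) [] :=
    (Force.inv hFG (inv_nil j m)).imp fun P hP =>
      ⟨Finset.range P.length, subset_rfl, fun y _ z hz _ => hz, wd_range hP.2.1.good,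
        Nat.zero_le _, hP.1⟩
  exact lem_gen hrep j m v (2 * v) hFG (region_two hrep j m v hFG hB)

end Pool.Agent.Helper18.SQ
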