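import Pool.Agent.Helper18.SQ.T2

/-!
`lemB`: a region with `v + g` colours from the top structure; the variant of Lemma A.
-/

set_option autoImplicit false

namespace Pool.Agent.Helper18.SQ

open Pool.Agent.Helper3.DW Pool.Agent.Helper26.SQ

/-- The top structure, or a region with `M` colours. -/
def TopR (k g M : ℕ) (P : Ps) : Prop := TopQ k g P ∨ Blk k 0 M P (Finset.range P.length)

theorem blk_top {P N : Ps} {D U : Finset ℕ} {j a b : ℕ}
    (hP : ∀ x y, plt P x y → x < P.length ∧ y < P.length)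
    (hN : ∀ x y, plt N x y → x < N.length ∧ y < N.length)
    (hD : ∀ d ∈ D, d < P.length) (hU : ∀ d ∈ U, d < P.length) (hU0 : U = ∅)
    (h : Blk j a b N (Finset.range N.length)) :
    Blk j a b (glue P D U N) (Finset.range (glue P D U N).length) := by
  refine (Blk.new (P := P) (D := D) (U := U) h hP hD hU).whole ?_ ?_
  · intro y hy z hlt
    obtain ⟨i, hi, rfl⟩ := mem_sh.1 hy
    rcases (plt_glue _ _ _ _ _ _).1 hlt with h6 | ⟨a, b, h6, h7, h8⟩ | ⟨h6, _⟩ | ⟨h6, _⟩
    · have := (hP _ _ h6).1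
      omega
    · rw [h7]
      exact add_mem_sh.2 (Finset.mem_range.2 (hN _ _ h8).2)
    · have := hD _ h6
      omega
    · rw [hU0] at h6
      simp at h6
  · intro y hy
    obtain ⟨i, hi, rfl⟩ := mem_sh.1 hy
    rw [glue_length]
    have := Finset.mem_range.1 hi
    omega

/-- A play of the full width on the top of everything. -/
theorem St.insTop {j m : ℕ} {Q : Ps → Prop} {P₀ P : Ps} {q : ℕ} {C : ℕ → Finset ℕ}
    {R S : ℕ → ℕ → Bool} (h : St j m Q P₀ P q C R S) {Q2 : Ps → Prop}
    (hF : Force (2 * j) m Q2 []) :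
    ∃ P' N : Ps, Q2 N ∧ Inv (2 * j) m N ∧ Safe (2 * j) m Q P' ∧ P <:+ P' ∧
      (∀ a b, Blk j a b N (Finset.range N.length) → Blk j a b P' (Finset.range P'.length)) ∧
      ∀ (q2 : ℕ) (F2 C2 : ℕ → Finset ℕ) (R2 S2 : ℕ → ℕ → Bool), Sys N q2 F2 C2 R2 S2 →
        (∀ a < q2, Wd N (F2 a) j) →
        St j m Q P₀ P' (q + q2) (catC q C C2) (catR q R R2 tt ff) (catS q S S2 tt ff) := by
  obtain ⟨F, hs, hW⟩ := h.sys
  have hg := h.safe.inv.good.lt_len
  have hN : Wd P (un q F (fun a => !tt a && !ff a)) 0 := by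
    have : un q F (fun a => !tt a && !ff a) = ∅ := un_none fun a _ => rfl
    rw [this]
    exact wd_empty _ _
  have hh : IsHole (2 * j) (2 * j) P (un q F tt) (un q F ff) :=
    hs.hole tt ff (fun a _ b _ _ h2 => by simp [tt] at h2) (fun a _ b _ h1 _ => by simp [ff] at h1)
      (fun a _ b _ _ h2 => by simp [ff] at h2) hN (by omega) hg
  obtain ⟨N, hN1, hN2, hN3⟩ := h.safe.ins hh hF
  refine ⟨_, N, hN1, hN2, hN3, suffix_glue _ _ _ _,
    fun a b hab => blk_top hg hN2.good.lt_len hh.dlen hh.ulen (un_none fun a _ => rfl) hab,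
    fun q2 F2 C2 R2 S2 hs2 hW2 => ⟨hN3, h.suf.trans (suffix_glue _ _ _ _),
      catF q P.length F F2, hs.glu hs2 tt ff hg hN2.good.lt_len, ?_⟩⟩
  intro a ha1 ha
  by_cases haq : a < q
  · have : catF q P.length F F2 a = F a := if_pos haq
    rw [this]
    exact (hW a ha1 haq).old (suffix_glue _ _ _ _) (fun y hy => hs.len haq y hy)
  · have : catF q P.length F F2 a = sh P.length (F2 (a - q)) := if_neg haq
    rw [this]
    exact Wd.new (hW2 _ (by omega))

/-- A region with `v + g` colours. -/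
theorem region_top (j m v g : ℕ) (hFG : FG j m v)
    (hT : ∀ M : ℕ, Force (2 * j) m (TopR j g M) []) :
    Force (2 * j) m (fun P => Blk j 0 (v + g) P (Finset.range P.length)) [] := by
  by_contra hnf
  set Q : Ps → Prop := fun P => Blk j 0 (v + g) P (Finset.range P.length) with hQ
  have h0 : St j m Q [] [] 1 (fun _ => cols []) oo oo :=
    ⟨⟨inv_nil _ _, hnf⟩, List.suffix_rfl, _, sys_one [], by intro a h1 h2; omega⟩
  have hmax : ∀ P', [] <:+ P' → Safe (2 * j) m Q P' →
      ¬ Blk j 0 (v + g) P' (Finset.range P'.length) := fun P' _ h => h.not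
  obtain ⟨P2, N, hN | hN, hI, hsafe, hsuf, hblk, h2⟩ := h0.insTop (hT (v + g))
  · obtain ⟨F, C, hS, hW0, hW1, hC, hg⟩ := hN
    have h3 := h2 2 F C _ _ hS (by
      intro a ha
      have : a = 0 ∨ a = 1 := by omega
      rcases this with rfl | rfl
      · exact hW0
      · exact hW1)
    obtain ⟨P3, s, hs, -, h4⟩ := h3.ins1 hFG (fun a => a == 0) (fun a => a == 2)
      (by decide) (by decide) (by decide) (by decide) (by decide)
    have h5 := h4.reg hmax (fun a => a == 2 || a == 3) (by decide) (by decide) (by decide)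
    have h6 : Disjoint (C 0) s :=
      h4.disj 1 3 (by decide) (by decide) (by decide) (by decide) (by decide)
    have f1 : C 1 ⊆ _ := sub_un (C := catC (1 + 2) (catC 1 (fun _ => cols []) C) (fun _ => s))
      (q := 1 + 2 + 1) (A := fun a => a == 2 || a == 3) 2 (by decide) (by decide)
    have f2 : s ⊆ _ := sub_un (C := catC (1 + 2) (catC 1 (fun _ => cols []) C) (fun _ => s))
      (q := 1 + 2 + 1) (A := fun a => a == 2 || a == 3) 3 (by decide) (by decide)
    have f3 := Finset.card_le_card (Finset.union_subset f1 f2)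
    rw [Finset.card_union_of_disjoint (h6.mono_left hC)] at f3
    omega
  · exact hmax P2 hsuf hsafe (hblk _ _ hN)

/-- T2 with the top structure. -/
theorem lemB (hrep : ST_rep) (j m v g : ℕ) (hFG : FG j m v)
    (hT : ∀ M : ℕ, Force (2 * j) m (TopR j g M) []) :
    Force (2 * j) m (fun P => Blk j (11 * v) (v + g) P (Finset.range P.length)) [] :=
  lem_gen hrep j m v (v + g) hFG (region_top j m v g hFG hT)

end Pool.Agent.Helper18.SQ
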