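import Pool.Agent.Helper18.SQ.T2b

/-!
The top structure, or a region with many colours (after Helper91/SQ/Top.lean; only the two
alternatives of the repetition theorem are treated in a different way).
-/

set_option autoImplicit false

namespace Pool.Agent.Helper18.SQ

open Pool.Agent.Helper3.DW Pool.Agent.Helper26.SQ

theorem inv_mono {w w' m : ℕ} {P : Ps} (h : Inv w m P) (hw : w ≤ w') : Inv w' m P :=
  ⟨h.good.mono hw, h.card, h.disj⟩

theorem st_topR (hT1 : ST_rep) (k j m a b g : ℕ) (hjk : 2 * j ≤ k)
    (hB : Force k m (fun P => Blk j a b P (Finset.range P.length)) [])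
    (hg : 4 * g ≤ a + 3 * b + 3) (M : ℕ) : Force (k + j) m (TopR k g M) [] := by
  have hR := (hT1 k m j a b hB 3 M).inv (inv_nil k m)
  refine (hR.mono (Nat.le_add_right k j)).bind ?_
  rintro P ⟨hP | hP, hI, -⟩
  swap
  · exact Force.here _ (Or.inr ⟨Finset.range P.length, subset_rfl, fun y _ z hz _ => hz,
      wd_range hI.good, Nat.zero_le _, hP⟩)
  obtain ⟨F, C, T, hS, hi⟩ := hP
  obtain ⟨hC2, C2, hC2s, hC2u, hC2w, hC2a, hC2b⟩ := hi 2 (by norm_num) (by norm_num)
  obtain ⟨hC1, -⟩ := hi 1 (by norm_num) (by norm_num)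
  obtain ⟨hC3, -⟩ := hi 3 (by norm_num) (by norm_num)
  have l0 := hS.len (a := 0) (by norm_num)
  have l1 := hS.len (a := 1) (by norm_num)
  have l2 := hS.len (a := 2) (by norm_num)
  have l3 := hS.len (a := 3) (by norm_num)
  have cov : ∀ x, x < P.length → x ∈ F 0 ∨ x ∈ F 1 ∨ x ∈ F 2 ∨ x ∈ F 3 := by
    intro x hx
    obtain ⟨c, hc, hxc⟩ := (hS.cov x).1 hx
    rcases c with _ | _ | _ | _ | c
    · exact Or.inl hxc
    · exact Or.inr (Or.inl hxc)
    · exact Or.inr (Or.inr (Or.inl hxc))
    · exact Or.inr (Or.inr (Or.inr hxc))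
    · omega
  have nb : ∀ c < 4, ∀ d < 4, d < c → ∀ x ∈ F c, ∀ y ∈ F d, ¬ plt P x y := fun c hc d hd hdc =>
    hS.nb c hc d hd (by simpa using hdc)
  have lt : ∀ c < 4, ∀ d < 4, c < d → ∀ x ∈ F c, ∀ y ∈ F d, plt P x y := fun c hc d hd hdc =>
    hS.lt c hc d hd (by simpa using hdc)
  have dj : ∀ c < 4, ∀ d < 4, c ≠ d → ∀ x ∈ F c, x ∉ F d := fun c hc d hd hcd x hx hy =>
    hcd (hS.dj c hc d hd x hx hy)
  have hlen := hI.good.lt_len
  -- the hole
  have hh : IsHole (k + j) k P (F 0 ∪ F 1 ∪ (F 2 \ C2)) (F 3) := by
    constructor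
    · intro d hd
      simp only [Finset.mem_union, Finset.mem_sdiff] at hd
      rcases hd with (hd | hd) | hd
      · exact l0 d hd
      · exact l1 d hd
      · exact l2 d hd.1
    · exact l3
    · intro x d hxd hd
      have hx := (hlen x d hxd).1
      simp only [Finset.mem_union, Finset.mem_sdiff] at hd ⊢
      rcases cov x hx with h | h | h | h
      · exact Or.inl (Or.inl h)
      · exact Or.inl (Or.inr h)
      · rcases hd with (hd | hd) | hd
        · exact absurd hxd (nb 2 (by norm_num) 0 (by norm_num) (by norm_num) x h d hd)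
        · exact absurd hxd (nb 2 (by norm_num) 1 (by norm_num) (by norm_num) x h d hd)
        · exact Or.inr ⟨h, fun hxC => hd.2 (hC2u x hxC d hd.1 hxd)⟩
      · rcases hd with (hd | hd) | hd
        · exact absurd hxd (nb 3 (by norm_num) 0 (by norm_num) (by norm_num) x h d hd)
        · exact absurd hxd (nb 3 (by norm_num) 1 (by norm_num) (by norm_num) x h d hd)
        · exact absurd hxd (nb 3 (by norm_num) 2 (by norm_num) (by norm_num) x h d hd.1)
    · intro u y huy hu
      have hy := (hlen u y huy).2
      rcases cov y hy with h | h | h | h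
      · exact absurd huy (nb 3 (by norm_num) 0 (by norm_num) (by norm_num) u hu y h)
      · exact absurd huy (nb 3 (by norm_num) 1 (by norm_num) (by norm_num) u hu y h)
      · exact absurd huy (nb 3 (by norm_num) 2 (by norm_num) (by norm_num) u hu y h)
      · exact h
    · intro d hd u hu
      simp only [Finset.mem_union, Finset.mem_sdiff] at hd
      rcases hd with (hd | hd) | hd
      · exact lt 0 (by norm_num) 3 (by norm_num) (by norm_num) d hd u hu
      · exact lt 1 (by norm_num) 3 (by norm_num) (by norm_num) d hd u hu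
      · exact lt 2 (by norm_num) 3 (by norm_num) (by norm_num) d hd.1 u hu
    · intro s hs ha
      have h1 : s ⊆ C2 := by
        intro x hx
        obtain ⟨h1, h2, h3⟩ := hs x hx
        simp only [Finset.mem_union, Finset.mem_sdiff, not_or, not_and, not_not] at h2
        rcases cov x h1 with h | h | h | h
        · exact absurd h h2.1.1
        · exact absurd h h2.1.2
        · exact h2.2 h
        · exact absurd h h3
      have := hC2w s h1 ha
      omega
  have hDl : ∀ d ∈ F 0 ∪ F 1 ∪ (F 2 \ C2), d < P.length := hh.dlen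
  refine (Force.hole0 (inv_mono hI (Nat.le_add_right k j)) hh
    ((hT1 k m j a b hB 2 M))).imp ?_
  rintro P' ⟨hI', R, hR | hR, hIR, rfl⟩
  swap
  · refine Or.inr ⟨sh P.length (Finset.range R.length) ∪ F 3, ?_, ?_, ?_, Nat.zero_le _, ?_⟩
    · intro x hx
      rw [Finset.mem_range, glue_length]
      rcases Finset.mem_union.1 hx with hx | hx
      · obtain ⟨i, hi, rfl⟩ := mem_sh.1 hx
        have := Finset.mem_range.1 hi
        omega
      · have := l3 x hx
        omega
    · intro x hx y _ hxy
      rw [Finset.mem_union] at hx ⊢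
      rcases (plt_glue _ _ _ _ _ _).1 hxy with h | ⟨i, i', h1, h2, h3⟩ | ⟨h1, i, h2, h3⟩ |
        ⟨h1, i, h2, h3⟩
      · have hl := hlen x y h
        rcases hx with hx | hx
        · have := le_of_mem_sh hx
          omega
        · right
          rcases cov y hl.2 with h4 | h4 | h4 | h4
          · exact absurd h (nb 3 (by norm_num) 0 (by norm_num) (by norm_num) x hx y h4)
          · exact absurd h (nb 3 (by norm_num) 1 (by norm_num) (by norm_num) x hx y h4)
          · exact absurd h (nb 3 (by norm_num) 2 (by norm_num) (by norm_num) x hx y h4)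
          · exact h4
      · left
        rw [h2]
        exact add_mem_sh.2 (Finset.mem_range.2 (hIR.good.lt_len _ _ h3).2)
      · exfalso
        rcases hx with hx | hx
        · have h5 := le_of_mem_sh hx
          have h6 := hDl x h1
          omega
        · simp only [Finset.mem_union, Finset.mem_sdiff] at h1
          rcases h1 with (h1 | h1) | h1
          · exact dj 0 (by norm_num) 3 (by norm_num) (by norm_num) x h1 hx
          · exact dj 1 (by norm_num) 3 (by norm_num) (by norm_num) x h1 hx
          · exact dj 2 (by norm_num) 3 (by norm_num) (by norm_num) x h1.1 hx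
      · exact Or.inr h1
    · refine Wd.lin (Wd.new (wd_range hIR.good)) ?_ ?_
      · refine Wd.old ((wd_range hI.good).mono ?_ le_rfl) (suffix_glue _ _ _ _) l3
        intro x hx
        exact Finset.mem_range.2 (l3 x hx)
      · intro y hy z hz
        obtain ⟨i, hi, rfl⟩ := mem_sh.1 hy
        exact (plt_glue _ _ _ _ _ _).2 (Or.inr (Or.inr (Or.inr ⟨hz, i, Finset.mem_range.1 hi,
          rfl⟩)))
    · refine hR.trans ?_
      have h1 : cols R = colU (glue P (F 0 ∪ F 1 ∪ (F 2 \ C2)) (F 3) R)
          (sh P.length (Finset.range R.length)) := (colU_sh_glue _ _ _ _ _).symm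
      rw [h1]
      exact Finset.card_le_card (colU_mono Finset.subset_union_left)
  left
  obtain ⟨F', C', T', hS', hi'⟩ := hR
  obtain ⟨hA2, CA, hCAs, hCAu, hCAw, hCAa, hCAb⟩ := hi' 2 (by norm_num) (by norm_num)
  obtain ⟨hA1, -⟩ := hi' 1 (by norm_num) (by norm_num)
  set D := F 0 ∪ F 1 ∪ (F 2 \ C2) with hD
  have r1 := hS'.len (a := 1) (by norm_num)
  have r2 := hS'.len (a := 2) (by norm_num)
  have hsuf := suffix_glue P D (F 3) R
  set P' := glue P D (F 3) R with hP'
  have hlenR := hIR.good.lt_len
  have hlen' : P'.length = P.length + R.length := glue_length P D (F 3) R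
  have hplt : ∀ x y, plt P' x y ↔ (plt P x y) ∨ (∃ i i', x = P.length + i ∧ y = P.length + i' ∧
      plt R i i') ∨ (x ∈ D ∧ ∃ i, i < R.length ∧ y = P.length + i) ∨
      (y ∈ F 3 ∧ ∃ i, i < R.length ∧ x = P.length + i) := by
    intro x y
    rw [hP', plt_glue]
  have hC2l : ∀ x ∈ C2, x < P.length := fun x hx => l2 x (hC2s hx)
  have hCAl : ∀ x ∈ CA, x < R.length := fun x hx => r2 x (hCAs hx)
  set Up := C2 ∪ sh P.length CA ∪ F 3 with hUp
  set tau := Finset.range P'.length \ Up with htau
  have hUpl : ∀ x ∈ Up, x < P'.length := by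
    intro x hx
    simp only [hUp, Finset.mem_union] at hx
    rcases hx with (hx | hx) | hx
    · have := hC2l x hx
      omega
    · obtain ⟨i, hi, rfl⟩ := mem_sh.1 hx
      have := hCAl i hi
      omega
    · have := l3 x hx
      omega
  -- the upper part is an upset
  have hup : ∀ x ∈ Up, ∀ y, plt P' x y → y ∈ Up := by
    intro x hx y hxy
    simp only [hUp, Finset.mem_union] at hx ⊢
    rcases (hplt x y).1 hxy with h | ⟨i, i', h1, h2, h3⟩ | ⟨h1, i, h2, h3⟩ | ⟨h1, i, h2, h3⟩
    · have hl := hlen x y h
      rcases hx with (hx | hx) | hx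
      · rcases cov y hl.2 with h4 | h4 | h4 | h4
        · exact absurd h (nb 2 (by norm_num) 0 (by norm_num) (by norm_num) x (hC2s hx) y h4)
        · exact absurd h (nb 2 (by norm_num) 1 (by norm_num) (by norm_num) x (hC2s hx) y h4)
        · exact Or.inl (Or.inl (hC2u x hx y h4 h))
        · exact Or.inr h4
      · have := le_of_mem_sh hx
        omega
      · rcases cov y hl.2 with h4 | h4 | h4 | h4
        · exact absurd h (nb 3 (by norm_num) 0 (by norm_num) (by norm_num) x hx y h4)
        · exact absurd h (nb 3 (by norm_num) 1 (by norm_num) (by norm_num) x hx y h4)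
        · exact absurd h (nb 3 (by norm_num) 2 (by norm_num) (by norm_num) x hx y h4)
        · exact Or.inr h4
    · rcases hx with (hx | hx) | hx
      · have := hC2l x hx
        omega
      · obtain ⟨i2, hi2, hx2⟩ := mem_sh.1 hx
        have e1 : i2 = i := by omega
        subst e1
        have hl := hlenR _ _ h3
        obtain ⟨c, hc, hic⟩ := (hS'.cov i').1 hl.2
        left
        right
        rw [h2]
        refine add_mem_sh.2 ?_
        have hi2F := hCAs hi2
        rcases c with _ | _ | _ | c
        · exact absurd h3 (hS'.nb 2 (by norm_num) 0 (by norm_num) (by simp) _ hi2F _ hic)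
        · exact absurd h3 (hS'.nb 2 (by norm_num) 1 (by norm_num) (by simp) _ hi2F _ hic)
        · exact hCAu _ hi2 _ hic h3
        · omega
      · have := l3 x hx
        omega
    · exfalso
      simp only [hD, Finset.mem_union, Finset.mem_sdiff] at h1
      rcases hx with (hx | hx) | hx
      · rcases h1 with (h1 | h1) | h1
        · exact dj 0 (by norm_num) 2 (by norm_num) (by norm_num) x h1 (hC2s hx)
        · exact dj 1 (by norm_num) 2 (by norm_num) (by norm_num) x h1 (hC2s hx)
        · exact h1.2 hx
      · have h5 := le_of_mem_sh hx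
        have h6 : x < P.length := hDl x (by simpa only [hD, Finset.mem_union, Finset.mem_sdiff] using h1)
        omega
      · rcases h1 with (h1 | h1) | h1
        · exact dj 0 (by norm_num) 3 (by norm_num) (by norm_num) x h1 hx
        · exact dj 1 (by norm_num) 3 (by norm_num) (by norm_num) x h1 hx
        · exact dj 2 (by norm_num) 3 (by norm_num) (by norm_num) x h1.1 hx
    · exact Or.inr h1
  -- the widths
  have wtau : Wd P' tau k := by
    have h1 : Wd P' (D ∪ sh P.length (Finset.range R.length)) k := by
      refine Wd.lin ?_ ?_ ?_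
      · refine Wd.old ((wd_range hI.good).mono ?_ le_rfl) hsuf hDl
        intro x hx
        exact Finset.mem_range.2 (hDl x hx)
      · exact Wd.new (wd_range hIR.good)
      · intro y hy z hz
        obtain ⟨i, hi, rfl⟩ := mem_sh.1 hz
        exact (hplt _ _).2 (Or.inr (Or.inr (Or.inl ⟨hy, i, Finset.mem_range.1 hi, rfl⟩)))
    refine h1.mono ?_ le_rfl
    intro x hx
    simp only [htau, Finset.mem_sdiff, Finset.mem_range, hUp, Finset.mem_union, not_or] at hx
    obtain ⟨hx1, ⟨hx2, hx3⟩, hx4⟩ := hx
    rw [Finset.mem_union]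
    by_cases h2 : x < P.length
    · left
      simp only [hD, Finset.mem_union, Finset.mem_sdiff]
      rcases cov x h2 with h | h | h | h
      · exact Or.inl (Or.inl h)
      · exact Or.inl (Or.inr h)
      · exact Or.inr ⟨h, hx2⟩
      · exact absurd h hx4
    · right
      exact mem_sh.2 ⟨x - P.length, Finset.mem_range.2 (by omega), by omega⟩
  have wUp : Wd P' Up k := by
    refine Wd.lin ?_ ?_ ?_
    · exact ((hC2w.old hsuf hC2l).add (Wd.new hCAw)).mono (Finset.Subset.refl _) (by omega)
    · refine Wd.old ((wd_range hI.good).mono ?_ le_rfl) hsuf l3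
      intro x hx
      exact Finset.mem_range.2 (l3 x hx)
    · intro y hy z hz
      rcases Finset.mem_union.1 hy with hy | hy
      · exact (hplt _ _).2 (Or.inl (lt 2 (by norm_num) 3 (by norm_num) (by norm_num) y
          (hC2s hy) z hz))
      · obtain ⟨i, hi, rfl⟩ := mem_sh.1 hy
        exact (hplt _ _).2 (Or.inr (Or.inr (Or.inr ⟨hz, i, hCAl i hi, rfl⟩)))
  -- colours
  have c1 : colU P' (F 1) = T := by
    rw [colU_suffix hsuf l1, hS.col 1 (by norm_num), hC1]
  have c2 : colU P' (F 2) = T := by
    rw [colU_suffix hsuf l2, hS.col 2 (by norm_num), hC2]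
  have c3 : colU P' (F 3) = T := by
    rw [colU_suffix hsuf l3, hS.col 3 (by norm_num), hC3]
  have cC2 : colU P' C2 = colU P C2 := colU_suffix hsuf hC2l
  have cCA : colU P' (sh P.length CA) = colU R CA := colU_sh_glue _ _ _ _ _
  have cA1 : colU P' (sh P.length (F' 1)) = T' := by
    rw [colU_sh_glue, hS'.col 1 (by norm_num), hA1]
  have hF1 : F 1 ⊆ tau := by
    intro x hx
    have := l1 x hx
    simp only [htau, hUp, Finset.mem_sdiff, Finset.mem_range, Finset.mem_union, not_or]
    refine ⟨by omega, ⟨fun h => ?_, fun h => ?_⟩, fun h => ?_⟩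
    · exact dj 1 (by norm_num) 2 (by norm_num) (by norm_num) x hx (hC2s h)
    · have := le_of_mem_sh h
      omega
    · exact dj 1 (by norm_num) 3 (by norm_num) (by norm_num) x hx h
  have hA1t : sh P.length (F' 1) ⊆ tau := by
    intro x hx
    have h0 := le_of_mem_sh hx
    obtain ⟨i, hi, hxi⟩ := mem_sh.1 hx
    have := r1 i hi
    simp only [htau, hUp, Finset.mem_sdiff, Finset.mem_range, Finset.mem_union, not_or]
    refine ⟨by omega, ⟨fun h => ?_, fun h => ?_⟩, fun h => ?_⟩
    · have := hC2l x h
      omega
    · obtain ⟨i', hi', hxi'⟩ := mem_sh.1 h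
      have e : i' = i := by omega
      subst e
      have := hS'.dj 1 (by norm_num) 2 (by norm_num) _ hi (hCAs hi')
      omega
    · have := l3 x h
      omega
  have hcol : colU P' Up ⊆ colU P' tau := by
    intro c hc
    obtain ⟨x, hx, hcx⟩ := mem_colU.1 hc
    simp only [hUp, Finset.mem_union] at hx
    rcases hx with (hx | hx) | hx
    · refine colU_mono hF1 ?_
      rw [c1, ← c2]
      exact mem_colU.2 ⟨x, hC2s hx, hcx⟩
    · refine colU_mono hA1t ?_
      rw [cA1, ← hA2, ← hS'.col 2 (by norm_num)]
      refine colU_mono hCAs ?_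
      rw [← cCA]
      exact mem_colU.2 ⟨x, hx, hcx⟩
    · refine colU_mono hF1 ?_
      rw [c1, ← c3]
      exact mem_colU.2 ⟨x, hx, hcx⟩
  have n1 : (colU P (F 2)).card ≤ (colU P' Up).card := by
    have h1 : colU P (F 2) = colU P' (F 3) := by
      rw [c3, hS.col 2 (by norm_num), hC2]
    rw [h1]
    exact Finset.card_le_card (colU_mono Finset.subset_union_right)
  have n2 : (colU P C2).card + (colU R CA).card ≤ (colU P' Up).card := by
    have hdis : Disjoint (colU P' C2) (colU P' (sh P.length CA)) := by
      refine hI'.disj_colU (fun x hx => hUpl x ?_) (fun x hx => hUpl x ?_) ?_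
      · exact Finset.mem_union_left _ (Finset.mem_union_left _ hx)
      · exact Finset.mem_union_left _ (Finset.mem_union_right _ hx)
      · intro x hx y hy
        have hx1 := hC2l x hx
        have hy1 := le_of_mem_sh hy
        have hxD : x ∉ D := by
          simp only [hD, Finset.mem_union, Finset.mem_sdiff, not_or, not_and, not_not]
          refine ⟨⟨fun h => ?_, fun h => ?_⟩, fun _ => hx⟩
          · exact dj 0 (by norm_num) 2 (by norm_num) (by norm_num) x h (hC2s hx)
          · exact dj 1 (by norm_num) 2 (by norm_num) (by norm_num) x h (hC2s hx)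
        have hx3 : x ∉ F 3 := fun h =>
          dj 3 (by norm_num) 2 (by norm_num) (by norm_num) x h (hC2s hx)
        refine ⟨by omega, fun h => ?_, fun h => ?_⟩
        · rcases (hplt _ _).1 h with h | ⟨i, i', h1, h2, h3⟩ | ⟨h1, i, h2, h3⟩ | ⟨h1, i, h2, h3⟩
          · have := (hlen _ _ h).2
            omega
          · omega
          · exact hxD h1
          · omega
        · rcases (hplt _ _).1 h with h | ⟨i, i', h1, h2, h3⟩ | ⟨h1, i, h2, h3⟩ | ⟨h1, i, h2, h3⟩
          · have := (hlen _ _ h).1
            omega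
          · omega
          · omega
          · exact hx3 h1
    rw [← cC2, ← cCA, ← Finset.card_union_of_disjoint hdis]
    refine Finset.card_le_card (Finset.union_subset (colU_mono ?_) (colU_mono ?_))
    · exact Finset.subset_union_left.trans Finset.subset_union_left
    · exact Finset.subset_union_right.trans Finset.subset_union_left
  refine ⟨fun c => if c = 0 then tau else Up, fun c => colU P' (if c = 0 then tau else Up),
    ⟨?_, ?_, ?_, ?_, ?_⟩, ?_, ?_, ?_, ?_⟩
  · intro x
    constructor
    · intro hx
      by_cases h : x ∈ Up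
      · exact ⟨1, by norm_num, by simpa using h⟩
      · exact ⟨0, by norm_num, by simp [htau, h, hx]⟩
    · rintro ⟨c, hc, hx⟩
      by_cases h : c = 0
      · simp only [h, if_true] at hx
        exact Finset.mem_range.1 (Finset.mem_sdiff.1 hx).1
      · simp only [h, if_false] at hx
        exact hUpl x hx
  · intro c hc d hd x hx hy
    by_cases h : c = 0
    · by_cases h' : d = 0
      · omega
      · simp only [h, h', if_true, if_false] at hx hy
        exact absurd hy (Finset.mem_sdiff.1 hx).2
    · by_cases h' : d = 0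
      · simp only [h, h', if_true, if_false] at hx hy
        exact absurd hx (Finset.mem_sdiff.1 hy).2
      · omega
  · intro c hc
    rfl
  · intro c hc d hd h
    simp at h
  · intro c hc d hd h x hx y hy hxy
    simp only [Bool.and_eq_true, beq_iff_eq] at h
    obtain ⟨rfl, rfl⟩ := h
    simp only [one_ne_zero, if_false, if_true] at hx hy
    exact (Finset.mem_sdiff.1 hy).2 (hup x hx y hxy)
  · simpa using wtau
  · simpa using wUp
  · simpa using hcol
  · simp only [one_ne_zero, if_false]
    omega

end Pool.Agent.Helper18.SQ
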