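import Pool.Agent.Helper18.SQ.T3b
import Pool.Agent.Helper26.SQ.Vlem
import Pool.Agent.Helper26.SQ.Rep

/-!
The recursion with the top structure inside the region: `v' = 3 v + g`, `g' = ⌈(14 v + 3 g) / 4⌉`,
and the resulting lower bound `w ^ β ≤ σ k` with `β = log₂ σ`, `σ = (15 + √305) / 8 > 4.058`.
-/

set_option autoImplicit false

namespace Pool.Agent.Helper18.SQ

open Pool.Agent.Helper3.DW Pool.Agent.Helper26.SQ

/-- In width `j` one forces `v` colours, in width `2 j` the top structure with `g` colours. -/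
def VG (j m v g : ℕ) : Prop := FG j m v ∧ ∀ M : ℕ, Force (2 * j) m (TopR j g M) []

theorem fg_of_vg {j m v g : ℕ} (h : VG j m v g) : FG (2 * j) m (3 * v + g) := by
  refine st_vlem j m v g h.1 fun M => ?_
  refine (h.2 M).imp ?_
  intro P hP
  rcases hP with hP | hP
  · exact Or.inl hP
  · obtain ⟨C, h1, -, -, -, h2⟩ := hP
    refine Or.inr (h2.trans (Finset.card_le_card ?_))
    intro c hc
    obtain ⟨i, hi, hc⟩ := mem_colU.1 hc
    exact mem_cols.2 ⟨i, Finset.mem_range.1 (h1 hi), hc⟩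

theorem vg_next {j m v g g' : ℕ} (h : VG j m v g) (hg : 4 * g' ≤ 14 * v + 3 * g + 3) :
    VG (2 * j) m (3 * v + g) g' := by
  refine ⟨fg_of_vg h, fun M => ?_⟩
  have h1 := lemB st_rep j m v g h.1 h.2
  have h2 := st_topR st_rep (2 * j) j m (11 * v) (v + g) g' le_rfl h1 (by omega) M
  exact h2.mono (by omega)

theorem fg_one : FG 1 1 1 := by
  refine Force.step [] ∅ ∅ ?_ fun A hA _ => Force.here _ ?_
  · refine ⟨?_, ?_, ?_, ?_⟩
    · intro i j h
      simp [plt] at h
    · intro i h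
      simp [plt] at h
    · intro i j k h
      simp [plt] at h
    · intro s hs _
      have : s ⊆ {0} := fun i hi => by
        have := hs i hi
        simp at this
        simpa using this
      exact (Finset.card_le_card this).trans (by simp)
  · have : A ⊆ cols [⟨∅, ∅, A⟩] := by
      intro c hc
      refine mem_cols.2 ⟨0, by simp, ?_⟩
      simpa [pcol] using hc
    exact hA ▸ Finset.card_le_card this

theorem vg_base : VG 2 1 5 5 := by
  refine ⟨fg_five, fun M => ?_⟩
  have h1 := st_lemA st_rep 1 1 1 fg_one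
  have h2 := st_topR st_rep 2 1 1 11 2 5 le_rfl h1 (by omega) M
  exact h2.mono (by omega)

/-- The numbers of colours for the widths `2, 4, 8, …`. -/
def vg : ℕ → ℕ × ℕ
  | 0 => (5, 5)
  | (i + 1) => (3 * (vg i).1 + (vg i).2, (14 * (vg i).1 + 3 * (vg i).2 + 3) / 4)

theorem vg_all : ∀ i : ℕ, VG (2 ^ (i + 1)) 1 (vg i).1 (vg i).2
  | 0 => vg_base
  | (i + 1) => by
    have h := vg_next (g' := (14 * (vg i).1 + 3 * (vg i).2 + 3) / 4) (vg_all i) (by omega)
    have e : 2 ^ (i + 1 + 1) = 2 * 2 ^ (i + 1) := by ring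
    rw [e]
    exact h

/-- The growth rate of the recursion. -/
noncomputable def sig : ℝ := (15 + Real.sqrt 305) / 8

theorem sig_sq : sig * (sig - 3) = 7 / 2 + 3 / 4 * (sig - 3) := by
  have h : Real.sqrt 305 ^ 2 = 305 := Real.sq_sqrt (by norm_num)
  unfold sig
  nlinarith [h]

theorem sig_gt : (4.058 : ℝ) < sig := by
  have : (17.464 : ℝ) < Real.sqrt 305 := by
    rw [Real.lt_sqrt (by norm_num)]
    norm_num
  unfold sig
  linarith

theorem sig_lt : sig < 4.0581 := by
  have : Real.sqrt 305 < 17.4648 := by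
    rw [Real.sqrt_lt' (by norm_num)]
    norm_num
  unfold sig
  linarith

theorem sig_pos : 0 < sig := by have := sig_gt; linarith

theorem sig_pow_le : ∀ i : ℕ, 1.16 * sig ^ (i + 1) ≤ ((vg i).1 : ℝ) ∧
    1.16 * (sig - 3) * sig ^ (i + 1) ≤ ((vg i).2 : ℝ)
  | 0 => by
    have h1 := sig_lt
    have h2 := sig_gt
    have h3 := sig_sq
    simp only [vg]
    constructor
    · push_cast
      linarith
    · push_cast
      nlinarith
  | (i + 1) => by
    obtain ⟨h1, h2⟩ := sig_pow_le i
    have hs := sig_sq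
    have hp : 0 < sig ^ (i + 1) := pow_pos sig_pos _
    have h3 : 14 * (vg i).1 + 3 * (vg i).2 ≤ 4 * ((14 * (vg i).1 + 3 * (vg i).2 + 3) / 4) := by
      omega
    have h4 : 14 * ((vg i).1 : ℝ) + 3 * ((vg i).2 : ℝ) ≤
        4 * (((14 * (vg i).1 + 3 * (vg i).2 + 3) / 4 : ℕ) : ℝ) := by exact_mod_cast h3
    constructor
    · have e : 1.16 * sig ^ (i + 1 + 1) =
          3 * (1.16 * sig ^ (i + 1)) + 1.16 * (sig - 3) * sig ^ (i + 1) := by ring
      rw [e]
      simp only [vg]
      push_cast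
      linarith
    · have e : 1.16 * (sig - 3) * sig ^ (i + 1 + 1) =
          7 / 2 * (1.16 * sig ^ (i + 1)) + 3 / 4 * (1.16 * (sig - 3) * sig ^ (i + 1)) := by
        have : 1.16 * (sig - 3) * sig ^ (i + 1 + 1) =
          1.16 * sig ^ (i + 1) * (sig * (sig - 3)) := by ring
        rw [this, hs]
        ring
      rw [e]
      simp only [vg]
      linarith

/-- The exponent. -/
noncomputable def beta : ℝ := Real.logb 2 sig

theorem two_rpow_beta : (2 : ℝ) ^ beta = sig := by
  unfold beta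
  exact Real.rpow_logb (by norm_num) (by norm_num) sig_pos

theorem beta_gt : (2.0207 : ℝ) < beta := by
  have h1 : (390 / 193 : ℝ) < beta := by
    unfold beta
    rw [Real.lt_logb_iff_rpow_lt (by norm_num) sig_pos]
    have h2 : ((2 : ℝ) ^ (390 / 193 : ℝ)) ^ 193 = 2 ^ 390 := by
      rw [← Real.rpow_natCast, ← Real.rpow_mul (by norm_num), ← Real.rpow_natCast]
      norm_num
    have h3 : (2 : ℝ) ^ 390 < sig ^ 193 := by
      have h4 : (4.058 : ℝ) ^ 193 < sig ^ 193 :=
        pow_lt_pow_left₀ sig_gt (by norm_num) (by norm_num)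
      have h5 : (2 : ℝ) ^ 390 < 4.058 ^ 193 := by
        have e1 : (2 : ℝ) ^ 390 = ((2 : ℝ) ^ 195) ^ 2 := by
          rw [← pow_mul]
        rw [e1]
        norm_num
      exact h5.trans h4
    rw [← h2] at h3
    exact lt_of_pow_lt_pow_left₀ 193 sig_pos.le h3
  have h2 : (2.0207 : ℝ) < 390 / 193 := by norm_num
  exact h2.trans h1

theorem beta_pos : 0 < beta := by have := beta_gt; linarith

/-- The bound for powers of two. -/
theorem pow_two_bound (i k : ℕ) (h : Suffices (2 ^ (i + 1)) k) : (vg i).1 ≤ k :=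
  le_of_suffices (vg_all i).1 h

/-- The general bound. -/
theorem super_bound (w k : ℕ) (h : Suffices w k) : (w : ℝ) ^ beta ≤ 7 / 2 * (k : ℝ) := by
  rcases Nat.eq_zero_or_pos w with rfl | hw
  · rw [Nat.cast_zero, Real.zero_rpow beta_pos.ne']
    exact mul_nonneg (by norm_num) (Nat.cast_nonneg k)
  · have h1 : 2 ^ Nat.log 2 w ≤ w := Nat.pow_log_le_self 2 hw.ne'
    have h2 : w < 2 ^ (Nat.log 2 w + 1) := Nat.lt_pow_succ_log_self (by norm_num) w
    rcases Nat.eq_zero_or_pos (Nat.log 2 w) with h0 | h0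
    · rw [h0] at h2
      have : w = 1 := by omega
      subst this
      have h3 : 1 ≤ k := le_of_suffices fg_one h
      have h3' : (1 : ℝ) ≤ (k : ℝ) := by exact_mod_cast h3
      rw [Nat.cast_one, Real.one_rpow]
      linarith
    obtain ⟨i, hi⟩ : ∃ i, Nat.log 2 w = i + 1 := ⟨Nat.log 2 w - 1, by omega⟩
    rw [hi] at h1 h2
    have h3 : (vg i).1 ≤ k := le_of_suffices ((vg_all i).1.mono h1 le_rfl) h
    have h3' : ((vg i).1 : ℝ) ≤ (k : ℝ) := by exact_mod_cast h3
    have h4 : (w : ℝ) ^ beta ≤ ((2 : ℝ) ^ (i + 1 + 1)) ^ beta := by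
      refine Real.rpow_le_rpow (Nat.cast_nonneg w) ?_ beta_pos.le
      exact_mod_cast h2.le
    have h5 : ((2 : ℝ) ^ (i + 1 + 1)) ^ beta = sig ^ (i + 1 + 1) := by
      rw [← Real.rpow_natCast, ← Real.rpow_mul (by norm_num), mul_comm, Real.rpow_mul (by norm_num),
        two_rpow_beta, Real.rpow_natCast]
    have h6 := (sig_pow_le i).1
    have h7 : sig ^ (i + 1 + 1) = sig * sig ^ (i + 1) := by ring
    have h8 : 0 < sig ^ (i + 1) := pow_pos sig_pos _
    have h9 := sig_lt
    rw [h5, h7] at h4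
    nlinarith

/-- A covering of all computable posets of width `w` needs at least `(2 / 7) w ^ 2.0207` chains. -/
theorem super_bound_num (w k : ℕ) (h : Suffices w k) :
    (w : ℝ) ^ (2.0207 : ℝ) ≤ 7 / 2 * (k : ℝ) := by
  rcases Nat.eq_zero_or_pos w with rfl | hw
  · rw [Nat.cast_zero, Real.zero_rpow (by norm_num)]
    exact mul_nonneg (by norm_num) (Nat.cast_nonneg k)
  · refine (Real.rpow_le_rpow_of_exponent_le ?_ beta_gt.le).trans (super_bound w k h)
    exact_mod_cast hw

end Pool.Agent.Helper18.SQ
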